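import Pool.Agent.helper75.AU.SpecR

/-!
# Project au (MP_97532f_ag): S12, the end of Case I
-/

namespace Pool.Agent.helper75.AU

open scoped Classical
open Pool.Agent.helper53.AU MulAction

/-- arithmetic core of S12 -/
theorem S12_arith (l o2 T T2 h' m : ℕ) (hT : h' ∣ T) (ho2 : h' ∣ o2)
    (rh : 2 * (l + 1) + 2 * (3 ^ m + 1) + o2 = 2 + 2 * (3 ^ m + 1) * T + o2 * T2)
    (hm : 3 ≤ m) (hodd : m % 2 = 1) (hh' : 2 * h' + 1 = 3 ^ m) :
    ∃ r : ℕ, r.Prime ∧ 5 ≤ r ∧ r ∣ 3 ^ m - 1 ∧ r ∣ l + 2 := by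
  have h27 : 27 ≤ 3 ^ m := by
    calc 27 = 3 ^ 3 := by norm_num
      _ ≤ 3 ^ m := Nat.pow_le_pow_right (by norm_num) hm
  have h1 : h' ≠ 1 := by omega
  obtain ⟨r, hr, hrh⟩ := Nat.exists_prime_and_dvd h1
  have h3m : 3 ∣ 3 ^ m := dvd_pow_self 3 (by omega)
  have hmod4 : 3 ^ m % 4 = 3 := by
    obtain ⟨k, hk⟩ : ∃ k, m = 2 * k + 1 := ⟨m / 2, by omega⟩
    subst hk
    rw [pow_succ, pow_mul, Nat.mul_mod, Nat.pow_mod]
    norm_num
  have hr2 : r ≠ 2 := by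
    rintro rfl
    omega
  have hr3 : r ≠ 3 := by
    rintro rfl
    omega
  have hr5 : 5 ≤ r := by
    have h2 := hr.two_le
    have h4 : r ≠ 4 := by
      rintro rfl
      exact absurd hr (by norm_num)
    omega
  refine ⟨r, hr, hr5, ?_, ?_⟩
  · have : 3 ^ m - 1 = 2 * h' := by omega
    rw [this]
    exact Dvd.dvd.mul_left hrh 2
  · obtain ⟨t, ht⟩ := hrh.trans hT
    obtain ⟨w, hw⟩ := hrh.trans ho2
    obtain ⟨v, hv⟩ := hrh
    have e1 : (2 * (l + 2) : ℤ) = r * (2 * (3 ^ m + 1) * t + w * T2 - w - 4 * v) := by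
      have rh' : (2 * ((l : ℤ) + 1) + 2 * (3 ^ m + 1) + o2 : ℤ) =
          2 + 2 * (3 ^ m + 1) * T + o2 * T2 := by exact_mod_cast rh
      have hh'' : (2 * (h' : ℤ) + 1 : ℤ) = 3 ^ m := by exact_mod_cast hh'
      have ht' : (T : ℤ) = r * t := by exact_mod_cast ht
      have hw' : (o2 : ℤ) = r * w := by exact_mod_cast hw
      have hv' : (h' : ℤ) = r * v := by exact_mod_cast hv
      rw [ht', hw'] at rh'
      rw [hv'] at hh''
      linear_combination rh' + 2 * hh''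
    have e2 : (r : ℤ) ∣ 2 * (l + 2) := ⟨_, e1⟩
    have e3 : r ∣ 2 * (l + 2) := by exact_mod_cast e2
    rcases (Nat.Prime.dvd_mul hr).1 e3 with h | h
    · exact absurd ((Nat.prime_dvd_prime_iff_eq hr Nat.prime_two).1 h) hr2
    · exact h

theorem S12 : S12_stmt := by
  intro k G X _ _ _ _ _ _ l R x y u h' e' m hS h2 hN hm hodd he' hh' hl
  have hq2 : 0 < qq R y := Nat.card_pos
  obtain ⟨w, hw⟩ := hN.qdvd
  have ho2 : h' ∣ oo G y := by
    have h := hN.oy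
    rw [hw] at h
    have : oo G y = 2 * w * h' := by
      apply Nat.eq_of_mul_eq_mul_left hq2
      rw [h]
      ring
    rw [this]
    exact Dvd.intro_left _ rfl
  have hT : h' ∣ R.T x := by
    have h := hN.hT
    rw [hN.hx] at h
    exact (Dvd.intro_left _ rfl).trans h
  have rh := h2.rh
  rw [hN.ox, he'] at rh
  obtain ⟨r, hr, h5, hd, hd2⟩ := S12_arith l (oo G y) (R.T x) (R.T y) h' m hT ho2
    (by linarith [rh]) hm hodd hh'
  exact (hS.condR r m hr h5 (by omega) hl hd).2 hd2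

end Pool.Agent.helper75.AU
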